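import Pool.Agent.H16.CS.Targets

/-!
# The trace of a power is the power sum of the eigenvalues
-/

set_option autoImplicit false

open Polynomial

namespace Pool.Agent.H71.CS

open Pool.Agent.H16.CS

section Det

variable {Ω : Type} [Field Ω] [IsAlgClosed Ω]

/-- two multiplicative maps on `Ω[X]` which agree on constants and on `X - a` are equal -/
theorem monoidHom_ext' (D E : Polynomial Ω →* Ω) (hC : ∀ c, D (C c) = E (C c))
    (hX : ∀ a, D (X - C a) = E (X - C a)) (P : Polynomial Ω) : D P = E P := by
  have h := (IsAlgClosed.splits P).eq_prod_roots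
  rw [h, map_mul, map_mul, hC, map_multiset_prod, map_multiset_prod, Multiset.map_map,
    Multiset.map_map]
  congr 2
  refine Multiset.map_congr rfl fun a _ => ?_
  exact hX a

variable {ι : Type} [Fintype ι] [DecidableEq ι]

theorem card_roots_charpoly' (N : Matrix ι ι Ω) :
    Multiset.card N.charpoly.roots = Fintype.card ι := by
  rw [← (IsAlgClosed.splits N.charpoly).natDegree_eq_card_roots, N.charpoly_natDegree_eq_dim]

/-- the determinant of a polynomial in a matrix -/
theorem det_aeval' (N : Matrix ι ι Ω) (P : Polynomial Ω) :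
    (aeval N P).det = (N.charpoly.roots.map fun ξ => P.eval ξ).prod := by
  let D : Polynomial Ω →* Ω :=
    Matrix.detMonoidHom.comp (aeval N : Polynomial Ω →ₐ[Ω] Matrix ι ι Ω).toRingHom.toMonoidHom
  let E : Polynomial Ω →* Ω :=
    { toFun := fun P => (N.charpoly.roots.map fun ξ => P.eval ξ).prod
      map_one' := by simp
      map_mul' := by
        intro P Q
        simp only [eval_mul]
        exact Multiset.prod_map_mul }
  refine monoidHom_ext' D E ?_ ?_ P
  · intro c
    show (aeval N (C c)).det = (N.charpoly.roots.map fun ξ => (C c).eval ξ).prod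
    rw [aeval_C]
    simp only [eval_C, Multiset.map_const', Multiset.prod_replicate]
    rw [card_roots_charpoly', Matrix.algebraMap_eq_diagonal, Matrix.det_diagonal]
    simp
  · intro a
    show (aeval N (X - C a)).det = (N.charpoly.roots.map fun ξ => (X - C a).eval ξ).prod
    have h1 : aeval N (X - C a) = - (Matrix.scalar ι a - N) := by
      rw [map_sub, aeval_X, aeval_C, neg_sub]
      rfl
    rw [h1, Matrix.det_neg, ← Matrix.eval_charpoly]
    have h2 := (IsAlgClosed.splits N.charpoly).eq_prod_roots
    rw [N.charpoly_monic.leadingCoeff, C_1, one_mul] at h2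
    have h3 : N.charpoly.eval a = (N.charpoly.roots.map fun ξ => a - ξ).prod := by
      conv_lhs => rw [h2]
      rw [eval_multiset_prod, Multiset.map_map]
      congr 1
      refine Multiset.map_congr rfl fun ξ _ => ?_
      simp
    rw [h3, ← card_roots_charpoly' N]
    have h4 : (-1 : Ω) ^ (Multiset.card N.charpoly.roots) =
        (N.charpoly.roots.map fun _ => (-1 : Ω)).prod := by
      rw [Multiset.map_const', Multiset.prod_replicate]
    rw [h4, ← Multiset.prod_map_mul]
    congr 1
    refine Multiset.map_congr rfl fun ξ _ => ?_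
    simp

/-- the characteristic polynomial of a power -/
theorem charpoly_pow' (N : Matrix ι ι Ω) (n : ℕ) :
    (N ^ n).charpoly = (N.charpoly.roots.map fun ξ => X - C (ξ ^ n)).prod := by
  have : Infinite Ω := IsAlgClosed.instInfinite
  refine Polynomial.funext fun c => ?_
  rw [Matrix.eval_charpoly, eval_multiset_prod, Multiset.map_map]
  have h1 : Matrix.scalar ι c - N ^ n = aeval N (C c - X ^ n) := by
    rw [map_sub, map_pow, aeval_X, aeval_C]
    rfl
  rw [h1, det_aeval']
  congr 1
  refine Multiset.map_congr rfl fun ξ _ => ?_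
  simp

/-- the trace of a power of a matrix -/
theorem trace_pow' (N : Matrix ι ι Ω) (n : ℕ) :
    (N ^ n).trace = (N.charpoly.roots.map fun ξ => ξ ^ n).sum := by
  have h1 : (N ^ n).charpoly =
      ((N.charpoly.roots.map fun ξ => ξ ^ n).map fun x => X - C x).prod := by
    rw [charpoly_pow', Multiset.map_map]
    rfl
  rw [Matrix.trace_eq_sum_roots_charpoly, h1, roots_multiset_prod_X_sub_C]

end Det

/-- TRP -/
theorem trp : T_TRP := by
  intro K Ω _ _ _ _ V _ _ _ f n
  let b := Module.finBasis K V
  set M := LinearMap.toMatrix b b f with hM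
  have h1 : f.charpoly = M.charpoly := (LinearMap.charpoly_toMatrix f b).symm
  have h2 : LinearMap.trace K V (f ^ n) = (M ^ n).trace := by
    rw [LinearMap.trace_eq_matrix_trace K b, LinearMap.toMatrix_pow]
  rw [h2, psm, eig, h1, ← Matrix.charpoly_map, ← trace_pow']
  rw [AddMonoidHom.map_trace (algebraMap K Ω)]
  congr 1
  have h3 : (M.map (algebraMap K Ω)) ^ n = (M ^ n).map (algebraMap K Ω) := by
    rw [← RingHom.mapMatrix_apply, ← RingHom.mapMatrix_apply, map_pow]
  rw [h3]

end Pool.Agent.H71.CS
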